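import Mathlib

namespace Pool.Agent.Results.MP_4ee39a_co.Net

open Finset

/-- W meets every edge. -/
def IsCover {X : Type} (E : Set (Finset X)) (W : Finset X) : Prop := ∀ e ∈ E, ∃ x ∈ e, x ∈ W

/-- W is a vertex cover and no proper subset of it is. -/
def IsMinCover {X : Type} (E : Set (Finset X)) (W : Finset X) : Prop :=
  IsCover E W ∧ ∀ W' ⊂ W, ¬ IsCover E W'

/-- The edges of the clutter of s-jets, on the vertex set X × {0..s}. -/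
def jets {X : Type} [DecidableEq X] (s : ℕ) (E : Set (Finset X)) : Set (Finset (X × Fin (s + 1))) :=
  {F | ∃ e ∈ E, ∃ i : X → Fin (s + 1), ∑ x ∈ e, (i x : ℕ) ≤ s ∧ F = e.image fun x => (x, i x)}

def E0 : Finset (Finset (Fin 6)) := {{0, 1, 2}, {0, 1, 5}, {0, 4, 2}, {3, 1, 2}}

def W0 : Finset (Fin 6 × Fin 2) := {(0, 0), (1, 0), (2, 0)}

theorem result : ∃ E : Set (Finset (Fin 6)), (∀ e ∈ E, e.card = 3) ∧
    (∀ W, IsMinCover E W → W.card = 2) ∧ ∃ W, IsMinCover (jets 1 E) W ∧ W.card = 3 := by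
  refine ⟨E0, ?_, ?_, W0, ⟨?_, ?_⟩, rfl⟩
  · simp only [mem_coe]
    decide
  · have : ∀ W : Finset (Fin 6), ((∀ e ∈ E0, ∃ x ∈ e, x ∈ W) ∧
        ∀ y ∈ W, ¬ ∀ e ∈ E0, ∃ x ∈ e, x ∈ W.erase y) → W.card = 2 := by decide +kernel
    intro W hW
    exact this W ⟨hW.1, fun y hy => hW.2 _ (erase_ssubset hy)⟩
  · have : ∀ e ∈ E0, ∀ i : Fin 6 → Fin 2, ∑ x ∈ e, (i x : ℕ) ≤ 1 →
        ∃ x ∈ e.image fun x => (x, i x), x ∈ W0 := by decide +kernel
    rintro F ⟨e, he, i, hi, rfl⟩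
    exact this e he i hi
  · intro W' hW' h
    obtain ⟨y, hy, hy'⟩ := exists_of_ssubset hW'
    have : ∀ y ∈ W0, ∃ e ∈ E0, ∃ z : Fin 6,
        ∑ x ∈ e, (((if x = z then 1 else 0 : Fin 2)) : ℕ) ≤ 1 ∧
        ∀ x ∈ e.image fun x => (x, (if x = z then 1 else 0 : Fin 2)), x ∈ W0 → x = y := by
      decide +kernel
    obtain ⟨e, he, z, hi, hn⟩ := this y hy
    obtain ⟨x, hx, hx'⟩ := h _ ⟨e, he, fun x => if x = z then 1 else 0, hi, rfl⟩
    exact hy' (hn x hx (hW'.subset hx') ▸ hx')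

end Pool.Agent.Results.MP_4ee39a_co.Net
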